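import Mathlib

open Filter Topology

namespace Pool.Agent.Results.MP_d594f7_lc.CesaroRamsey

/-- The space of infinite subsets of the natural numbers: a subspace of the Cantor space
`ℕ → Bool` (product topology), a subset being identified with its characteristic function. -/
abbrev InfSub : Type := {x : ℕ → Bool // {n | x n = true}.Infinite}

/-- The infinite set of natural numbers coded by a point of `InfSub`. -/
def elems (x : InfSub) : Set ℕ := {n | x.1 n = true}

/-- The basic Ellentuck set `[s, A]`: all infinite `x` with `s ⊆ x ⊆ s ∪ A` and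
`x ∩ (max s + 1) = s`. -/
def box (s : Finset ℕ) (A : Set ℕ) : Set InfSub :=
  {x | (s : Set ℕ) ⊆ elems x ∧ elems x ⊆ (s : Set ℕ) ∪ A ∧
    ∀ n ∈ elems x, (∃ m ∈ s, n ≤ m) → n ∈ s}

/-- Ramsey null sets: for every finite `s` and infinite `A` with `max s < min A` there is an
infinite `B ⊆ A` such that `[s, B]` misses `N`. -/
def RamseyNull (N : Set InfSub) : Prop :=
  ∀ (s : Finset ℕ) (A : Set ℕ), A.Infinite → (∀ m ∈ s, ∀ a ∈ A, m < a) →
    ∃ B ⊆ A, B.Infinite ∧ box s B ∩ N = ∅

/-- The counterexample: `par i x` is the parity of the number of elements of `x` that are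
at most `i`. -/
noncomputable def par (i : ℕ) (x : InfSub) : ℝ :=
  ((Nat.count (fun n => x.1 n = true) (i + 1) % 2 : ℕ) : ℝ)

lemma continuous_count (i : ℕ) :
    Continuous (fun x : InfSub => Nat.count (fun n => x.1 n = true) i) := by
  induction i with
  | zero => simpa using continuous_const
  | succ i ih =>
    simp only [Nat.count_succ]
    refine ih.add ?_
    have h1 : Continuous (fun x : InfSub => x.1 i) :=
      (continuous_apply i).comp continuous_subtype_val
    have h2 : Continuous (fun b : Bool => if b = true then (1 : ℕ) else 0) :=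
      continuous_of_discreteTopology
    exact h2.comp h1

lemma continuous_par (i : ℕ) : Continuous (par i) := by
  have h2 : Continuous (fun n : ℕ => ((n % 2 : ℕ) : ℝ)) := continuous_of_discreteTopology
  exact h2.comp (continuous_count (i + 1))

lemma par_nonneg (i : ℕ) (x : InfSub) : 0 ≤ par i x := by
  unfold par; positivity

lemma par_le_one (i : ℕ) (x : InfSub) : par i x ≤ 1 := by
  unfold par
  have : Nat.count (fun n => x.1 n = true) (i + 1) % 2 ≤ 1 := by omega
  exact_mod_cast this

/-- The averages of a subsequence of the parity functions along a subsequence of indices. -/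
noncomputable def avg (u v : ℕ → ℕ) (x : InfSub) (k : ℕ) : ℝ :=
  (∑ j ∈ Finset.range (v k), par (u j) x) / (v k : ℝ)

/-- Every infinite set has a subset whose elements grow faster than a given function. -/
lemma exists_sparse (g : ℕ → ℕ) (A : Set ℕ) (hA : A.Infinite) :
    ∃ B ⊆ A, B.Infinite ∧ ∀ b ∈ B, ∀ b' ∈ B, b < b' → g b < b' := by
  classical
  -- choose the next element
  have hnext : ∀ m : ℕ, ∃ a ∈ A, m < a := fun m => hA.exists_gt m
  choose nx hnxA hnx using hnext
  -- a monotone majorant of g
  let G : ℕ → ℕ := fun b => ∑ i ∈ Finset.range (b + 1), g i + b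
  have hG : ∀ b, g b ≤ G b := by
    intro b
    have : g b ≤ ∑ i ∈ Finset.range (b + 1), g i :=
      Finset.single_le_sum (f := g) (fun i _ => Nat.zero_le _) (Finset.self_mem_range_succ b)
    exact le_trans this (Nat.le_add_right _ _)
  have hGb : ∀ b, b ≤ G b := fun b => Nat.le_add_left _ _
  let b : ℕ → ℕ := fun n => Nat.rec (nx 0) (fun _ y => nx (G y)) n
  have hb0 : b 0 = nx 0 := rfl
  have hbs : ∀ n, b (n + 1) = nx (G (b n)) := fun n => rfl
  have hbA : ∀ n, b n ∈ A := by
    intro n
    cases n with
    | zero => exact hnxA 0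
    | succ n => rw [hbs]; exact hnxA _
  have hlt : ∀ n, G (b n) < b (n + 1) := by
    intro n; rw [hbs]; exact hnx _
  have hmono : StrictMono b := strictMono_nat_of_lt_succ (fun n => lt_of_le_of_lt (hGb _) (hlt n))
  refine ⟨Set.range b, ?_, Set.infinite_range_of_injective hmono.injective, ?_⟩
  · rintro _ ⟨n, rfl⟩; exact hbA n
  · rintro _ ⟨n, rfl⟩ _ ⟨m, rfl⟩ hnm
    have h1 : n < m := hmono.lt_iff_lt.mp hnm
    have h2 : b (n + 1) ≤ b m := hmono.monotone h1
    exact lt_of_le_of_lt (hG _) (lt_of_lt_of_le (hlt n) h2)

/-- The key computation: on `[s, B]` with `B` sparse, the averages oscillate. -/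
lemma diverges_on_box (u v : ℕ → ℕ) (hu : StrictMono u) (hv : StrictMono v)
    (s : Finset ℕ) (B : Set ℕ)
    (hB : ∀ b ∈ B, ∀ b' ∈ B, b < b' → u (v (4 * b)) < b')
    (x : InfSub) (hx : x ∈ box s B) :
    ¬ ∃ L : ℝ, Tendsto (avg u v x) atTop (𝓝 L) := by
  classical
  rintro ⟨L, hL⟩
  set p : ℕ → Prop := fun n => x.1 n = true with hp
  have hinf : {n | p n}.Infinite := x.2
  set e : ℕ → ℕ := Nat.nth p with he
  have hemono : StrictMono e := Nat.nth_strictMono hinf
  have hep : ∀ n, p (e n) := fun n => Nat.nth_mem_of_infinite hinf n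
  -- all but finitely many elements are in B
  obtain ⟨M, hM⟩ : ∃ M, ∀ m ∈ s, m < M := by
    refine ⟨s.sup id + 1, fun m hm => ?_⟩
    have : m ≤ s.sup id := Finset.le_sup (f := id) hm
    omega
  have heB : ∀ n, M ≤ n → e n ∈ B := by
    intro n hn
    have h1 : e n ∈ elems x := hep n
    rcases hx.2.1 h1 with h | h
    · exfalso
      have h2 := hM _ h
      have h3 : n ≤ e n := hemono.id_le n
      omega
    · exact h
  -- the value of par between consecutive elements
  have hval : ∀ n m, e n ≤ m → m < e (n + 1) → par m x = (((n + 1) % 2 : ℕ) : ℝ) := by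
    intro n m h1 h2
    unfold par
    have hc : Nat.count p (m + 1) = n + 1 := by
      apply le_antisymm
      · -- count p (m+1) ≤ count p (e (n+1)) = n+1
        have h3 : Nat.count p (m + 1) ≤ Nat.count p (e (n + 1)) := Nat.count_monotone p h2
        rw [he, Nat.count_nth_of_infinite hinf] at h3
        exact h3
      · have h3 : Nat.count p (e n + 1) ≤ Nat.count p (m + 1) :=
          Nat.count_monotone p (by omega)
        rw [Nat.count_succ, he, Nat.count_nth_of_infinite hinf] at h3
        have h4 : p (Nat.nth p n) := hep n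
        simpa [h4] using h3
    have hc' : Nat.count (fun n => x.1 n = true) (m + 1) = n + 1 := hc
    rw [hc']
  -- lower and upper bounds for the averages
  have hbound : ∀ n, M ≤ n → 1 ≤ n →
      |avg u v x (4 * e n) - (((n + 1) % 2 : ℕ) : ℝ)| ≤ 1 / 4 := by
    intro n hn hn1
    set b := e n with hb
    have hbn : n ≤ b := hemono.id_le n
    set V := v (4 * b) with hV
    have hVb : 4 * b ≤ V := hv.id_le _
    have hVpos : 0 < V := by omega
    have hnext : u V < e (n + 1) := by
      have := hB (e n) (heB n hn) (e (n + 1)) (heB (n + 1) (by omega)) (hemono (Nat.lt_succ_self n))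
      simpa [hb, hV] using this
    set c : ℝ := (((n + 1) % 2 : ℕ) : ℝ) with hc
    have hc0 : 0 ≤ c := by positivity
    have hc1 : c ≤ 1 := by
      have : (n + 1) % 2 ≤ 1 := by omega
      rw [hc]; exact_mod_cast this
    have hterm : ∀ j ∈ Finset.range V, |par (u j) x - c| ≤ if j < b then 1 else 0 := by
      intro j hj
      have hjV : j < V := Finset.mem_range.mp hj
      by_cases hjb : j < b
      · rw [if_pos hjb, abs_le]
        have h1 := par_nonneg (u j) x
        have h2 := par_le_one (u j) x
        constructor <;> linarith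
      · rw [if_neg hjb]
        have h1 : b ≤ u j := le_trans (not_lt.mp hjb) (hu.id_le j)
        have h2 : u j < e (n + 1) := lt_trans (hu hjV) hnext
        rw [hval n (u j) h1 h2, ← hc]
        simp
    have hsum : |∑ j ∈ Finset.range V, (par (u j) x - c)| ≤ b := by
      calc |∑ j ∈ Finset.range V, (par (u j) x - c)|
          ≤ ∑ j ∈ Finset.range V, |par (u j) x - c| := Finset.abs_sum_le_sum_abs _ _
        _ ≤ ∑ j ∈ Finset.range V, (if j < b then (1 : ℝ) else 0) := by
            apply Finset.sum_le_sum
            intro j hj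
            have := hterm j hj
            simpa using this
        _ ≤ b := by
            rw [Finset.sum_ite]
            simp only [Finset.sum_const, nsmul_eq_mul, mul_one, mul_zero, add_zero]
            have : (Finset.filter (fun j => j < b) (Finset.range V)).card ≤ b := by
              calc (Finset.filter (fun j => j < b) (Finset.range V)).card
                  ≤ (Finset.range b).card := by
                    apply Finset.card_le_card
                    intro j hj
                    simp only [Finset.mem_filter] at hj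
                    exact Finset.mem_range.mpr hj.2
                _ = b := Finset.card_range b
            exact_mod_cast this
    have hVR : (0 : ℝ) < (V : ℝ) := by exact_mod_cast hVpos
    have hdiff : avg u v x (4 * b) - c = (∑ j ∈ Finset.range V, (par (u j) x - c)) / V := by
      unfold avg
      rw [Finset.sum_sub_distrib, Finset.sum_const, Finset.card_range, nsmul_eq_mul, ← hV]
      field_simp
    rw [hdiff, abs_div, abs_of_pos hVR, div_le_iff₀ hVR]
    have h5 : (4 : ℝ) * b ≤ V := by exact_mod_cast hVb
    linarith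
  -- two subsequences with different limits
  have hlim : ∀ r : ℕ, Tendsto (fun n => avg u v x (4 * e (2 * n + r))) atTop (𝓝 L) := by
    intro r
    apply hL.comp
    apply tendsto_atTop_mono (f := fun n : ℕ => n) _ tendsto_id
    intro n
    have : 2 * n + r ≤ e (2 * n + r) := hemono.id_le _
    omega
  have h0 : L ≥ 3 / 4 := by
    apply ge_of_tendsto (hlim 0)
    filter_upwards [eventually_ge_atTop (M + 1)] with n hn
    have h := hbound (2 * n + 0) (by omega) (by omega)
    have h2 : (2 * n + 0 + 1) % 2 = 1 := by omega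
    rw [h2, abs_le] at h
    have := h.1
    push_cast at this
    linarith
  have h1 : L ≤ 1 / 4 := by
    apply le_of_tendsto (hlim 1)
    filter_upwards [eventually_ge_atTop (M + 1)] with n hn
    have h := hbound (2 * n + 1) (by omega) (by omega)
    have h2 : (2 * n + 1 + 1) % 2 = 0 := by omega
    rw [h2, abs_le] at h
    have := h.2
    push_cast at this
    linarith
  linarith

/-- Basic sets are nonempty. -/
lemma box_nonempty (s : Finset ℕ) (B : Set ℕ) (hB : B.Infinite) (hsB : ∀ m ∈ s, ∀ a ∈ B, m < a) :
    (box s B).Nonempty := by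
  classical
  have hinf : {n | decide (n ∈ (s : Set ℕ) ∪ B) = true}.Infinite := by
    apply hB.mono
    intro n hn
    simp [hn]
  refine ⟨⟨fun n => decide (n ∈ (s : Set ℕ) ∪ B), hinf⟩, ?_, ?_, ?_⟩
  · intro n hn
    have hn' : n ∈ s := hn
    simp [elems, hn']
  · intro n hn
    have : decide (n ∈ (s : Set ℕ) ∪ B) = true := hn
    exact of_decide_eq_true this
  · intro n hn hm
    obtain ⟨m, hms, hnm⟩ := hm
    have h1 : decide (n ∈ (s : Set ℕ) ∪ B) = true := hn
    rcases of_decide_eq_true h1 with h | h
    · exact h
    · exact absurd (hsB m hms n h) (by omega)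

/-- There are continuous functions `f i` from the space of infinite subsets of the natural
numbers to `[0, 1]` such that, for all subsequences `u` and `v`, the averages
`(1 / v k) * ∑ j < v k, f (u j)` converge only on a Ramsey null set; hence they do not
converge outside any Ramsey null set. -/
theorem result :
    ∃ f : ℕ → InfSub → ℝ,
      (∀ i, Continuous (f i)) ∧ (∀ i x, f i x ∈ Set.Icc (0 : ℝ) 1) ∧
      ∀ u v : ℕ → ℕ, StrictMono u → StrictMono v →
        RamseyNull {x | ∃ L : ℝ,
          Tendsto (fun k => (∑ j ∈ Finset.range (v k), f (u j) x) / (v k : ℝ)) atTop (𝓝 L)} ∧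
        ¬ ∃ N : Set InfSub, RamseyNull N ∧ ∀ x, x ∉ N → ∃ L : ℝ,
          Tendsto (fun k => (∑ j ∈ Finset.range (v k), f (u j) x) / (v k : ℝ)) atTop (𝓝 L) := by
  refine ⟨par, continuous_par, fun i x => ⟨par_nonneg i x, par_le_one i x⟩, ?_⟩
  intro u v hu hv
  have key : RamseyNull {x | ∃ L : ℝ, Tendsto (avg u v x) atTop (𝓝 L)} := by
    intro s A hA hsA
    obtain ⟨B, hBA, hBinf, hB⟩ := exists_sparse (fun b => u (v (4 * b))) A hA
    refine ⟨B, hBA, hBinf, ?_⟩
    rw [Set.eq_empty_iff_forall_notMem]
    rintro x ⟨hx, hconv⟩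
    exact diverges_on_box u v hu hv s B hB x hx hconv
  refine ⟨key, ?_⟩
  rintro ⟨N, hN, hconv⟩
  obtain ⟨B, -, hBinf, hB⟩ := key ∅ Set.univ Set.infinite_univ (by simp)
  obtain ⟨C, hCB, hCinf, hC⟩ := hN ∅ B hBinf (by simp)
  obtain ⟨x, hx⟩ := box_nonempty ∅ C hCinf (by simp)
  have hxN : x ∉ N := by
    intro h
    have : x ∈ box ∅ C ∩ N := ⟨hx, h⟩
    rw [hC] at this
    exact this
  have hxB : x ∈ box ∅ B := by
    refine ⟨hx.1, ?_, hx.2.2⟩
    intro n hn
    rcases hx.2.1 hn with h | h
    · exact Or.inl h
    · exact Or.inr (hCB h)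
  have : x ∈ box ∅ B ∩ {x | ∃ L : ℝ, Tendsto (avg u v x) atTop (𝓝 L)} := ⟨hxB, hconv x hxN⟩
  rw [hB] at this
  exact this

end Pool.Agent.Results.MP_d594f7_lc.CesaroRamsey
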